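import Mathlib

/-!
Negative answer to Q1 of MP_f4bed7_co: there are graphs of maximal degree at most `9` and Cheeger
constant at least `2` with `k`-net graphs of arbitrarily small Cheeger constant.

The graph `G N`: the rooted `4`-ary tree (base) together with rooted `8`-ary trees (hub trees).
For every `i` with `N ≤ i ≤ 2 N` there is one hub tree of depth `2 i` whose `8 ^ (2 i) = 4 ^ (3 i)`
leaves are the base vertices of level `3 i`.  For every `i > 2 N` there are `4 ^ (3 (i - 2 N))` hub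
trees of depth `4 N`, whose leaves are the base vertices of level `3 i` below a given base vertex of
level `3 (i - 2 N)`.  For `k = 4 N + 2` the root of the base tree and the roots of all hub trees
form a `k`-net; the root and the roots of the hub trees with `i ≤ 2 N` are `N + 2` vertices of the
net graph with at most `128` boundary edges.
-/

namespace Pool.Agent.Results.MP_f4bed7_co.HubTrees

/-- The edges of `H` with exactly one endpoint in `A`. -/
def edgeBoundary {V : Type*} (H : SimpleGraph V) (A : Set V) : Set (Sym2 V) :=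
  {e | ∃ u v, u ∈ A ∧ v ∉ A ∧ H.Adj u v ∧ e = s(u, v)}

/-- The Cheeger (edge-isoperimetric) constant of `H`: the infimum of `|∂_E A| / |A|` over the
finite nonempty sets `A` of vertices. -/
noncomputable def cheeger {V : Type*} (H : SimpleGraph V) : ENNReal :=
  ⨅ (A : Finset V) (_ : A.Nonempty),
    (((edgeBoundary H (A : Set V)).encard : ℕ∞) : ENNReal) / (A.card : ENNReal)

/-- `S` is a `k`-net of `G`: it is maximal under inclusion among the sets whose points are
pairwise at distance at least `k`. -/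
def IsNet {V : Type*} (G : SimpleGraph V) (k : ℕ) (S : Set V) : Prop :=
  Maximal (fun T : Set V => ∀ x ∈ T, ∀ y ∈ T, x ≠ y → k ≤ G.dist x y) S

/-- The `k`-net graph: the vertex set is `S`, and `u ≠ v` are adjacent iff `d_G(u,v) ≤ 2k`. -/
def netGraph {V : Type*} (G : SimpleGraph V) (k : ℕ) (S : Set V) : SimpleGraph S where
  Adj u v := u ≠ v ∧ G.dist (u : V) (v : V) ≤ 2 * k
  symm := ⟨fun u v h => ⟨h.1.symm, by rw [SimpleGraph.dist_comm]; exact h.2⟩⟩
  loopless := ⟨fun u h => h.1 rfl⟩

/-- `f h d k`: the infimum of the Cheeger constants of the `k`-net graphs of the infinite connected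
graphs with Cheeger constant larger than `h` and all degrees smaller than `d`. -/
noncomputable def f (h : ENNReal) (d k : ℕ) : ENNReal :=
  ⨅ (V : Type) (G : SimpleGraph V) (S : Set V) (_ : Infinite V) (_ : G.Connected)
    (_ : h < cheeger G) (_ : ∀ v, (G.neighborSet v).encard < d) (_ : IsNet G k S),
    cheeger (netGraph G k S)

/-! ### The graph -/

/-- bit length of the roots of the hub trees with index `i` -/
def lo (N i : ℕ) : ℕ := 6 * i - 12 * N

/-- Vertices: `i = 0` for base vertices (`l` is twice the level), `i ≥ N` for vertices of hub trees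
with leaves on level `3 i`; the vertex is given by a binary word of length `l`, with value `x`. -/
@[ext] structure Vx (N : ℕ) where
  i : ℕ
  l : ℕ
  x : ℕ
  hx : x < 2 ^ l
  hv : (i = 0 ∧ l % 2 = 0) ∨ (N ≤ i ∧ 0 < i ∧ lo N i ≤ l ∧ l < 6 * i ∧ l % 3 = 0)

variable {N : ℕ}

/-- `u` is a parent of `v` -/
def Par (u v : Vx N) : Prop :=
  (u.i = 0 ∧ v.i = 0 ∧ v.l = u.l + 2 ∧ v.x / 4 = u.x) ∨
  (0 < u.i ∧ v.i = u.i ∧ v.l = u.l + 3 ∧ v.x / 8 = u.x) ∨
  (0 < u.i ∧ v.i = 0 ∧ v.l = u.l + 3 ∧ v.l = 6 * u.i ∧ v.x / 8 = u.x)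

/-- the graph -/
def G (N : ℕ) : SimpleGraph (Vx N) where
  Adj u v := Par u v ∨ Par v u
  symm := ⟨fun u v h => h.symm⟩
  loopless := ⟨fun u h => by
    have : Par u u := h.elim id id
    unfold Par at this
    omega⟩

/-- the children -/
def ch (u : Vx N) (r : ℕ) : Vx N :=
  if h0 : u.i = 0 then
    ⟨0, u.l + 2, 4 * u.x + r % 4, by
      have h1 := u.hx
      have h2 : 2 ^ (u.l + 2) = 4 * 2 ^ u.l := by ring
      omega, by
      left
      rcases u.hv with h | h
      · exact ⟨rfl, by omega⟩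
      · omega⟩
  else if h1 : u.l + 3 < 6 * u.i then
    ⟨u.i, u.l + 3, 8 * u.x + r % 8, by
      have h1 := u.hx
      have h2 : 2 ^ (u.l + 3) = 8 * 2 ^ u.l := by ring
      omega, by
      right
      rcases u.hv with h | h
      · omega
      · exact ⟨h.1, h.2.1, by omega, h1, by omega⟩⟩
  else
    ⟨0, u.l + 3, 8 * u.x + r % 8, by
      have h1 := u.hx
      have h2 : 2 ^ (u.l + 3) = 8 * 2 ^ u.l := by ring
      omega, by
      left
      rcases u.hv with h | h
      · omega
      · exact ⟨rfl, by omega⟩⟩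

theorem par_ch (u : Vx N) (r : ℕ) : Par u (ch u r) := by
  unfold ch Par
  split_ifs with h0 h1
  · left
    refine ⟨h0, rfl, rfl, ?_⟩
    show (4 * u.x + r % 4) / 4 = u.x
    omega
  · right; left
    refine ⟨by omega, rfl, rfl, ?_⟩
    show (8 * u.x + r % 8) / 8 = u.x
    omega
  · right; right
    have h2 := u.hv
    refine ⟨by omega, rfl, rfl, ?_, ?_⟩
    · show u.l + 3 = 6 * u.i
      omega
    · show (8 * u.x + r % 8) / 8 = u.x
      omega

theorem ch_x (u : Vx N) (r : ℕ) (hr : r < 4) : (ch u r).x % 4 = r := by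
  unfold ch
  split_ifs with h0 h1
  · show (4 * u.x + r % 4) % 4 = r
    omega
  · show (8 * u.x + r % 8) % 4 = r
    omega
  · show (8 * u.x + r % 8) % 4 = r
    omega

theorem par_unique {u u' c : Vx N} (h : Par u c) (h' : Par u' c) (h0 : u.i = 0 ↔ u'.i = 0) :
    u = u' := by
  unfold Par at h h'
  apply Vx.ext <;> omega

theorem child_unique {u c c' : Vx N} (h : Par u c) (h' : Par u c')
    (h0 : c.x % 8 = c'.x % 8) : c = c' := by
  have h1 := c.hv
  have h2 := c'.hv
  unfold Par at h h'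
  apply Vx.ext <;> omega

theorem child_unique' {u c c' : Vx N} (hu : u.i = 0) (h : Par u c) (h' : Par u c')
    (h0 : c.x % 4 = c'.x % 4) : c = c' := by
  have h1 := c.hv
  have h2 := c'.hv
  unfold Par at h h'
  apply Vx.ext <;> omega

theorem adj_ch (u : Vx N) (r : ℕ) : (G N).Adj u (ch u r) := Or.inl (par_ch u r)

/-! ### Degrees -/

theorem degree_le (u : Vx N) : ((G N).neighborSet u).encard ≤ 9 := by
  classical
  have hsub : (G N).neighborSet u ⊆ {v | Par u v} ∪ {v | Par v u} := by
    intro v hv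
    exact hv
  refine (Set.encard_le_encard hsub).trans ((Set.encard_union_le _ _).trans ?_)
  by_cases hu : u.i = 0
  · have h1 : ({v | Par u v} : Set (Vx N)).encard ≤ 4 := by
      have := Set.encard_le_encard_of_injOn (s := {v : Vx N | Par u v})
        (t := ((Finset.range 4 : Finset ℕ) : Set ℕ)) (f := fun v => v.x % 4)
        (fun v _ => by simp; omega)
        (fun v hv w hw h => child_unique' hu hv hw h)
      rwa [Set.encard_coe_eq_coe_finsetCard, Finset.card_range] at this
    have h2 : ({v | Par v u} : Set (Vx N)).encard ≤ 2 := by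
      have := Set.encard_le_encard_of_injOn (s := {v : Vx N | Par v u})
        (t := ((Finset.univ : Finset Bool) : Set Bool)) (f := fun v => decide (v.i = 0))
        (fun v _ => Finset.mem_coe.2 (Finset.mem_univ _))
        (fun v hv w hw h => par_unique hv hw (by simpa using h))
      rwa [Set.encard_coe_eq_coe_finsetCard, Finset.card_univ, Fintype.card_bool] at this
    calc _ ≤ (4 : ℕ∞) + 2 := add_le_add h1 h2
      _ ≤ 9 := by norm_num
  · have h1 : ({v | Par u v} : Set (Vx N)).encard ≤ 8 := by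
      have := Set.encard_le_encard_of_injOn (s := {v : Vx N | Par u v})
        (t := ((Finset.range 8 : Finset ℕ) : Set ℕ)) (f := fun v => v.x % 8)
        (fun v _ => by simp; omega)
        (fun v hv w hw h => child_unique hv hw h)
      rwa [Set.encard_coe_eq_coe_finsetCard, Finset.card_range] at this
    have h2 : ({v | Par v u} : Set (Vx N)).encard ≤ 1 := by
      rw [Set.encard_le_one_iff]
      intro v w hv hw
      apply par_unique hv hw
      have hv' : Par v u := hv
      have hw' : Par w u := hw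
      unfold Par at hv' hw'
      omega
    calc _ ≤ (8 : ℕ∞) + 1 := add_le_add h1 h2
      _ ≤ 9 := by norm_num

/-! ### Cheeger constant of the graph -/

theorem boundary_ge (A : Finset (Vx N)) :
    ((2 * A.card : ℕ) : ℕ∞) ≤ (edgeBoundary (G N) (A : Set (Vx N))).encard := by
  classical
  set P := A ×ˢ Finset.range 4 with hP
  have hPc : P.card = 4 * A.card := by
    rw [hP, Finset.card_product, Finset.card_range, mul_comm]
  set P1 := P.filter (fun p => ch p.1 p.2 ∈ A) with hP1
  set P2 := P.filter (fun p => ch p.1 p.2 ∉ A) with hP2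
  have hsum : P1.card + P2.card = P.card := Finset.card_filter_add_card_filter_not _
  have h1 : P1.card ≤ 2 * A.card := by
    apply Finset.card_le_mul_card_image_of_maps_to (f := fun p : Vx N × ℕ => ch p.1 p.2)
    · intro p hp
      exact (Finset.mem_filter.mp hp).2
    · intro b _
      have h2 : (P1.filter (fun p => ch p.1 p.2 = b)).card ≤ (Finset.univ : Finset Bool).card := by
        apply Finset.card_le_card_of_injOn (fun p => decide (p.1.i = 0))
        · intro p _; exact Finset.mem_coe.2 (Finset.mem_univ _)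
        · intro p hp q hq hpq
          simp only [Finset.coe_filter, Set.mem_ofPred_eq, hP1, hP, Finset.mem_filter,
            Finset.mem_product, Finset.mem_range] at hp hq
          have e1 : Par p.1 b := hp.2 ▸ par_ch p.1 p.2
          have e2 : Par q.1 b := hq.2 ▸ par_ch q.1 q.2
          have e3 : p.1 = q.1 := par_unique e1 e2 (by simpa using hpq)
          have e4 : p.2 = q.2 := by
            have e5 := ch_x p.1 p.2 hp.1.1.2
            have e6 := ch_x q.1 q.2 hq.1.1.2
            rw [hp.2] at e5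
            rw [hq.2] at e6
            omega
          exact Prod.ext e3 e4
      simpa using h2
  have h2 : 2 * A.card ≤ P2.card := by omega
  have h3 := Set.encard_le_encard_of_injOn (s := (P2 : Set (Vx N × ℕ)))
    (t := edgeBoundary (G N) (A : Set (Vx N))) (f := fun p => s(p.1, ch p.1 p.2)) ?_ ?_
  · rw [Set.encard_coe_eq_coe_finsetCard] at h3
    exact le_trans (by exact_mod_cast h2) h3
  · intro p hp
    simp only [hP2, hP, Finset.coe_filter, Set.mem_ofPred_eq, Finset.mem_product,
      Finset.mem_range] at hp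
    exact ⟨p.1, ch p.1 p.2, hp.1.1, by simpa using hp.2, adj_ch _ _, rfl⟩
  · intro p hp q hq hpq
    simp only [hP2, hP, Finset.coe_filter, Set.mem_ofPred_eq, Finset.mem_product,
      Finset.mem_range] at hp hq
    rcases Sym2.eq_iff.mp hpq with ⟨e1, e2⟩ | ⟨e1, e2⟩
    · have e5 := ch_x p.1 p.2 hp.1.2
      have e6 := ch_x q.1 q.2 hq.1.2
      rw [e2] at e5
      exact Prod.ext e1 (by omega)
    · exfalso
      apply hq.2
      rw [← e1]
      exact hp.1.1

theorem cheeger_ge : 2 ≤ cheeger (G N) := by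
  unfold cheeger
  refine le_iInf₂ fun A hA => ?_
  have hc : (A.card : ENNReal) ≠ 0 := by
    exact_mod_cast (Finset.card_pos.mpr hA).ne'
  rw [ENNReal.le_div_iff_mul_le (Or.inl hc) (Or.inl (ENNReal.natCast_ne_top _))]
  have h := boundary_ge A
  have h2 : (((2 * A.card : ℕ) : ℕ∞) : ENNReal) ≤
      (((edgeBoundary (G N) (A : Set (Vx N))).encard : ℕ∞) : ENNReal) := by
    exact_mod_cast h
  refine le_trans (le_of_eq ?_) h2
  push_cast
  rfl

/-! ### Parents and paths upwards -/

/-- the root of the base tree -/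
def rt (N : ℕ) : Vx N := ⟨0, 0, 0, by norm_num, Or.inl ⟨rfl, rfl⟩⟩

theorem exists_base_parent (v : Vx N) (h : v.i = 0) (hl : 2 ≤ v.l) :
    ∃ p : Vx N, Par p v ∧ p.i = 0 ∧ p.l + 2 = v.l := by
  have h1 := v.hx
  have h2 : 2 ^ v.l = 4 * 2 ^ (v.l - 2) := by
    rw [show v.l = (v.l - 2) + 2 by omega, pow_add, Nat.add_sub_cancel]; ring
  have h3 := v.hv
  refine ⟨⟨0, v.l - 2, v.x / 4, by omega, Or.inl ⟨rfl, by omega⟩⟩, ?_, rfl, ?_⟩
  · left
    exact ⟨rfl, h, by show v.l = v.l - 2 + 2; omega, rfl⟩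
  · show v.l - 2 + 2 = v.l
    omega

theorem exists_hub_parent (v : Vx N) (h : 0 < v.i) (hl : lo N v.i < v.l) :
    ∃ p : Vx N, Par p v ∧ p.i = v.i ∧ p.l + 3 = v.l := by
  have h1 := v.hx
  have h3 := v.hv
  have h4 : lo N v.i % 3 = 0 := by unfold lo; omega
  have h2 : 2 ^ v.l = 8 * 2 ^ (v.l - 3) := by
    rw [show v.l = (v.l - 3) + 3 by omega, pow_add, Nat.add_sub_cancel]; ring
  refine ⟨⟨v.i, v.l - 3, v.x / 8, by omega, Or.inr ⟨by omega, h, by omega, by omega, by omega⟩⟩,
    ?_, rfl, ?_⟩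
  · right; left
    exact ⟨h, rfl, by show v.l = v.l - 3 + 3; omega, rfl⟩
  · show v.l - 3 + 3 = v.l
    omega

theorem exists_hub_above (hN : 0 < N) (v : Vx N) (h : v.i = 0) (i : ℕ) (hi : N ≤ i)
    (hl : v.l = 6 * i) : ∃ p : Vx N, Par p v ∧ p.i = i ∧ p.l + 3 = v.l := by
  have h1 := v.hx
  have h2 : 2 ^ v.l = 8 * 2 ^ (v.l - 3) := by
    rw [show v.l = (v.l - 3) + 3 by omega, pow_add, Nat.add_sub_cancel]; ring
  refine ⟨⟨i, v.l - 3, v.x / 8, by omega,
    Or.inr ⟨hi, by omega, by unfold lo; omega, by omega, by omega⟩⟩, ?_, rfl, ?_⟩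
  · right; right
    refine ⟨?_, h, by show v.l = v.l - 3 + 3; omega, hl, rfl⟩
    show 0 < i
    omega
  · show v.l - 3 + 3 = v.l
    omega

theorem reach_root (v : Vx N) (h : v.i = 0) : ∃ p : (G N).Walk (rt N) v, 2 * p.length = v.l := by
  induction hl : v.l using Nat.strong_induction_on generalizing v with
  | _ l ih =>
    rcases Nat.lt_or_ge l 2 with h2 | h2
    · have h3 := v.hv
      have h4 := v.hx
      have h5 : v.l = 0 := by omega
      have h6 : v.x = 0 := by rw [h5] at h4; omega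
      have h7 : v = rt N := Vx.ext h h5 h6
      subst h7
      exact ⟨SimpleGraph.Walk.nil, by simpa using h5.symm.trans hl⟩
    · obtain ⟨p, hp, hpi, hpl⟩ := exists_base_parent v h (by omega)
      obtain ⟨q, hq⟩ := ih p.l (by omega) p hpi rfl
      have hadj : (G N).Adj p v := Or.inl hp
      refine ⟨q.concat hadj, ?_⟩
      rw [SimpleGraph.Walk.length_concat]
      omega

theorem reach_down (v : Vx N) : ∃ w : Vx N, w.i = 0 ∧ (G N).Reachable v w := by
  induction hl : 6 * v.i - v.l using Nat.strong_induction_on generalizing v with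
  | _ m ih =>
    by_cases h0 : v.i = 0
    · exact ⟨v, h0, SimpleGraph.Reachable.refl _⟩
    · by_cases h1 : (ch v 0).i = 0
      · exact ⟨ch v 0, h1, (adj_ch v 0).reachable⟩
      · have h2 := par_ch v 0
        have h3 := v.hv
        unfold Par at h2
        obtain ⟨w, hw, hr⟩ := ih (6 * (ch v 0).i - (ch v 0).l) (by omega) (ch v 0) rfl
        exact ⟨w, hw, (adj_ch v 0).reachable.trans hr⟩

theorem connected : (G N).Connected := by
  have key : ∀ v, (G N).Reachable (rt N) v := by
    intro v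
    obtain ⟨w, hw, hr⟩ := reach_down v
    obtain ⟨p, -⟩ := reach_root w hw
    exact p.reachable.trans hr.symm
  have : Nonempty (Vx N) := ⟨rt N⟩
  exact ⟨fun u v => (key u).symm.trans (key v)⟩

theorem infinite : Infinite (Vx N) := by
  refine Infinite.of_injective
    (fun j : ℕ => (⟨0, 2 * j, 0, by positivity, Or.inl ⟨rfl, by omega⟩⟩ : Vx N)) ?_
  intro a b h
  have := congrArg Vx.l h
  simp only at this
  omega

/-! ### The net -/

/-- the net: the root of the base tree and the roots of the hub trees -/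
def S (N : ℕ) : Set (Vx N) := {v | (v.i = 0 ∧ v.l = 0) ∨ (0 < v.i ∧ v.l = lo N v.i)}

theorem hub_root (v : Vx N) (h : 0 < v.i) :
    ∃ s ∈ S N, 0 < s.i ∧ s.i = v.i ∧ 3 * (G N).dist s v + lo N v.i ≤ v.l := by
  induction hl : v.l using Nat.strong_induction_on generalizing v with
  | _ l ih =>
    have h3 := v.hv
    by_cases h1 : lo N v.i < v.l
    · obtain ⟨p, hp, hpi, hpl⟩ := exists_hub_parent v h h1
      obtain ⟨s, hs, hs0, hsi, hd⟩ := ih p.l (by omega) p (by omega) rfl
      refine ⟨s, hs, hs0, by omega, ?_⟩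
      have h4 := connected.dist_triangle (u := s) (v := p) (w := v)
      have h5 : (G N).dist p v = 1 := SimpleGraph.dist_eq_one_iff_adj.2 (Or.inl hp)
      rw [hpi] at hd
      omega
    · refine ⟨v, Or.inr ⟨h, by omega⟩, h, rfl, ?_⟩
      rw [SimpleGraph.dist_self]
      omega

theorem above (hN : 0 < N) (v : Vx N) (h : v.i = 0) (i : ℕ) (hi : N ≤ i) (hl : v.l = 6 * i) :
    ∃ s ∈ S N, (G N).dist s v ≤ 4 * N := by
  obtain ⟨p, hp, hpi, hpl⟩ := exists_hub_above hN v h i hi hl
  obtain ⟨s, hs, -, hsi, hd⟩ := hub_root p (by omega)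
  refine ⟨s, hs, ?_⟩
  have h4 := connected.dist_triangle (u := s) (v := p) (w := v)
  have h5 : (G N).dist p v = 1 := SimpleGraph.dist_eq_one_iff_adj.2 (Or.inl hp)
  have h6 : lo N p.i = 6 * p.i - 12 * N := rfl
  omega

theorem cover (hN : 2 ≤ N) (v : Vx N) : ∃ s ∈ S N, (G N).dist s v ≤ 4 * N + 1 := by
  have h3 := v.hv
  by_cases h0 : v.i = 0
  · rcases Nat.lt_or_ge v.l (6 * N) with h1 | h1
    · obtain ⟨p, hp⟩ := reach_root v h0
      refine ⟨rt N, Or.inl ⟨rfl, rfl⟩, (SimpleGraph.dist_le p).trans ?_⟩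
      omega
    · have hm : v.l % 6 = 0 ∨ v.l % 6 = 2 ∨ v.l % 6 = 4 := by omega
      rcases hm with hm | hm | hm
      · obtain ⟨s, hs, hd⟩ := above (by omega) v h0 (v.l / 6) (by omega) (by omega)
        exact ⟨s, hs, by omega⟩
      · obtain ⟨p, hp, hpi, hpl⟩ := exists_base_parent v h0 (by omega)
        obtain ⟨s, hs, hd⟩ := above (by omega) p hpi (v.l / 6) (by omega) (by omega)
        refine ⟨s, hs, ?_⟩
        have h4 := connected.dist_triangle (u := s) (v := p) (w := v)
        have h5 : (G N).dist p v = 1 := SimpleGraph.dist_eq_one_iff_adj.2 (Or.inl hp)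
        omega
      · have hc := par_ch v 0
        have hc' : (ch v 0).i = 0 ∧ (ch v 0).l = v.l + 2 := by
          unfold Par at hc
          omega
        obtain ⟨s, hs, hd⟩ := above (by omega) (ch v 0) hc'.1 (v.l / 6 + 1) (by omega) (by omega)
        refine ⟨s, hs, ?_⟩
        have h4 := connected.dist_triangle (u := s) (v := ch v 0) (w := v)
        have h5 : (G N).dist (ch v 0) v = 1 := SimpleGraph.dist_eq_one_iff_adj.2 (Or.inr hc)
        omega
  · obtain ⟨s, hs, -, hsi, hd⟩ := hub_root v (by omega)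
    have h6 : lo N v.i = 6 * v.i - 12 * N := rfl
    exact ⟨s, hs, by omega⟩

/-! ### Lower bounds for distances -/

theorem lip {V : Type*} {H : SimpleGraph V} (hc : H.Connected) (g : V → ℕ)
    (hg : ∀ u v, H.Adj u v → g v ≤ g u + 1) (u v : V) : g v ≤ g u + H.dist u v := by
  obtain ⟨p, hp⟩ := hc.exists_walk_length_eq_dist u v
  rw [← hp]
  clear hp
  induction p with
  | nil => simp
  | cons h q ih =>
    rw [SimpleGraph.Walk.length_cons]
    have := hg _ _ h
    omega

/-- `v` is in the hub tree with root `s` -/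
def Mt (s v : Vx N) : Prop := v.i = s.i ∧ v.x / 2 ^ (v.l - lo N s.i) = s.x

open Classical in
/-- a lower bound for the distance to the hub root `s` -/
noncomputable def pot (s v : Vx N) : ℕ :=
  if Mt s v then (v.l - lo N s.i) / 3
  else (6 * s.i - lo N s.i) / 3 +
    (if v.i = 0 then (v.l / 2 - 3 * s.i) + (3 * s.i - v.l / 2)
      else 3 * ((v.i - s.i) + (s.i - v.i)) + (6 * v.i - v.l) / 3)

theorem mt_iff {s u v : Vx N} (hs : 0 < s.i) (hvi : v.i = u.i)
    (hl : v.l = u.l + 3) (hx : v.x / 8 = u.x) : Mt s v ↔ Mt s u := by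
  unfold Mt
  rw [hvi]
  constructor
  · rintro ⟨h1, h2⟩
    refine ⟨h1, ?_⟩
    have h3 := u.hv
    rw [h1] at h3
    rw [← h2, ← hx, Nat.div_div_eq_div_mul, hl,
      show u.l + 3 - lo N s.i = (u.l - lo N s.i) + 3 by omega, pow_add]
    congr 1
    ring
  · rintro ⟨h1, h2⟩
    refine ⟨h1, ?_⟩
    have h3 := u.hv
    rw [h1] at h3
    rw [← h2, ← hx, Nat.div_div_eq_div_mul, hl,
      show u.l + 3 - lo N s.i = (u.l - lo N s.i) + 3 by omega, pow_add]
    congr 1
    ring

theorem pot_par {s u v : Vx N} (hs : 0 < s.i) (h : Par u v) :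
    pot s u ≤ pot s v + 1 ∧ pot s v ≤ pot s u + 1 := by
  have h1 := u.hv
  have h2 := v.hv
  have h3 := s.hv
  have h4 : lo N s.i % 3 = 0 := by unfold lo; omega
  rcases h with ⟨hu, hv, hl, hx⟩ | ⟨hu, hv, hl, hx⟩ | ⟨hu, hv, hl, hl', hx⟩
  · have m1 : ¬ Mt s u := fun h => by have := h.1; omega
    have m2 : ¬ Mt s v := fun h => by have := h.1; omega
    unfold pot
    rw [if_neg m1, if_neg m2, if_pos hu, if_pos hv]
    omega
  · have hm := mt_iff hs hv hl hx
    unfold pot
    by_cases m1 : Mt s u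
    · have m2 := hm.2 m1
      have m3 := m1.1
      rw [if_pos m1, if_pos m2]
      rw [m3] at h1
      omega
    · have m2 : ¬ Mt s v := fun h => m1 (hm.1 h)
      rw [if_neg m1, if_neg m2, if_neg (by omega), if_neg (by omega)]
      omega
  · have m2 : ¬ Mt s v := fun h => by have := h.1; omega
    unfold pot
    rw [if_neg m2, if_pos hv]
    by_cases m1 : Mt s u
    · have m3 := m1.1
      rw [if_pos m1]
      rw [m3] at h1
      omega
    · rw [if_neg m1, if_neg (by omega)]
      omega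

theorem pot_lip {s : Vx N} (hs : 0 < s.i) (u v : Vx N) :
    pot s v ≤ pot s u + (G N).dist u v := by
  apply lip connected
  intro u v h
  rcases h with h | h
  · exact (pot_par hs h).2
  · exact (pot_par hs h).1

theorem pot_self {s : Vx N} (hsl : s.l = lo N s.i) : pot s s = 0 := by
  have m : Mt s s := ⟨rfl, by rw [hsl, Nat.sub_self, pow_zero, Nat.div_one]⟩
  unfold pot
  rw [if_pos m, hsl]
  simp

theorem dist_hub_root {s : Vx N} (hs : 0 < s.i) (hsl : s.l = lo N s.i) :
    (6 * s.i - lo N s.i) / 3 + 3 * s.i ≤ (G N).dist s (rt N) := by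
  have h1 := pot_lip hs s (rt N)
  have m : ¬ Mt s (rt N) := fun h => by
    have := h.1
    change 0 = s.i at this
    omega
  have e : pot s (rt N) = (6 * s.i - lo N s.i) / 3 + 3 * s.i := by
    unfold pot
    rw [if_neg m, if_pos (show (rt N).i = 0 from rfl)]
    show _ + ((0 / 2 - 3 * s.i) + (3 * s.i - 0 / 2)) = _
    omega
  rw [pot_self hsl, e] at h1
  omega

theorem dist_hub_hub {s t : Vx N} (hs : 0 < s.i) (hsl : s.l = lo N s.i) (ht : 0 < t.i)
    (htl : t.l = lo N t.i) (hst : s ≠ t) :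
    (6 * s.i - lo N s.i) / 3 + 3 * ((t.i - s.i) + (s.i - t.i)) + (6 * t.i - lo N t.i) / 3 ≤
      (G N).dist s t := by
  have h1 := pot_lip hs s t
  have m : ¬ Mt s t := by
    rintro ⟨h, h'⟩
    apply hst
    have e : t.l = s.l := by rw [hsl, htl, h]
    refine Vx.ext h.symm e.symm ?_
    rw [← h', htl, h, Nat.sub_self, pow_zero, Nat.div_one]
  have e : pot s t = (6 * s.i - lo N s.i) / 3 +
      (3 * ((t.i - s.i) + (s.i - t.i)) + (6 * t.i - lo N t.i) / 3) := by
    unfold pot
    rw [if_neg m, if_neg (by omega), htl]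
  rw [pot_self hsl, e] at h1
  omega

/-- roots with the same index `i ≤ 2 N` are equal -/
theorem eq_of_small {s t : Vx N} (hsl : s.l = lo N s.i) (htl : t.l = lo N t.i)
    (hi : s.i = t.i) (h : s.i ≤ 2 * N) : s = t := by
  have h1 := s.hx
  have h2 := t.hx
  have e1 : s.l = 0 := by rw [hsl]; unfold lo; omega
  have e2 : t.l = 0 := by rw [htl]; unfold lo; omega
  rw [e1] at h1
  rw [e2] at h2
  exact Vx.ext hi (by omega) (by omega)

theorem sep (hN : 2 ≤ N) (s : Vx N) (hs : s ∈ S N) (t : Vx N) (ht : t ∈ S N) (hst : s ≠ t) :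
    4 * N + 2 ≤ (G N).dist s t := by
  have key : ∀ u : Vx N, u.i = 0 → u.l = 0 → u = rt N := by
    intro u h1 h2
    have h3 := u.hx
    rw [h2] at h3
    exact Vx.ext h1 h2 (by show u.x = 0; omega)
  have s1 := s.hv
  have t1 := t.hv
  rcases hs with ⟨h1, h2⟩ | ⟨h1, h2⟩
  · rcases ht with ⟨h3, h4⟩ | ⟨h3, h4⟩
    · exact absurd ((key s h1 h2).trans (key t h3 h4).symm) hst
    · have h5 := dist_hub_root h3 h4
      rw [key s h1 h2, SimpleGraph.dist_comm]
      unfold lo at *
      omega
  · rcases ht with ⟨h3, h4⟩ | ⟨h3, h4⟩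
    · have h5 := dist_hub_root h1 h2
      rw [key t h3 h4]
      unfold lo at *
      omega
    · have h5 := dist_hub_hub h1 h2 h3 h4 hst
      have h6 : s.i = t.i → ¬ s.i ≤ 2 * N := fun h h' => hst (eq_of_small h2 h4 h h')
      unfold lo at *
      omega

theorem isNet (hN : 2 ≤ N) : IsNet (G N) (4 * N + 2) (S N) := by
  refine ⟨fun s hs t ht hst => sep hN s hs t ht hst, ?_⟩
  intro T hT hST v hv
  obtain ⟨s, hs, hd⟩ := cover hN v
  by_contra hvS
  have hne : s ≠ v := fun h => hvS (h ▸ hs)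
  have := hT s (hST hs) v hv hne
  omega

/-! ### The set with small boundary -/

/-- the index of the `t`-th vertex of the set: `0, N, N + 1, ..., 2 N` -/
def idx (N t : ℕ) : ℕ := if t = 0 then 0 else N + t - 1

theorem idx_valid (hN : 2 ≤ N) (t : ℕ) :
    (idx N t = 0 ∧ 0 % 2 = 0) ∨
      (N ≤ idx N t ∧ 0 < idx N t ∧ (t ≤ N + 1 → lo N (idx N t) ≤ 0) ∧ 0 < 6 * idx N t ∧
        0 % 3 = 0) := by
  unfold idx lo
  split_ifs with h
  · exact Or.inl ⟨rfl, rfl⟩
  · right
    refine ⟨by omega, by omega, fun h => by omega, by omega, rfl⟩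

/-- the `t`-th vertex of the set, `t ≤ N + 1` -/
def a (hN : 2 ≤ N) (t : Fin (N + 2)) : S N :=
  ⟨⟨idx N t, 0, 0, by norm_num, by
    rcases idx_valid hN t with h | h
    · exact Or.inl h
    · exact Or.inr ⟨h.1, h.2.1, h.2.2.1 (by omega), h.2.2.2.1, h.2.2.2.2⟩⟩, by
    rcases idx_valid hN t with h | h
    · exact Or.inl ⟨h.1, rfl⟩
    · exact Or.inr ⟨h.2.1, (Nat.le_zero.mp (h.2.2.1 (by omega))).symm⟩⟩

theorem a_inj (hN : 2 ≤ N) : Function.Injective (a hN) := by
  intro s t h
  have h1 : idx N s = idx N t := congrArg (fun u : S N => u.1.i) h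
  unfold idx at h1
  apply Fin.ext
  split_ifs at h1 <;> omega

theorem exists_a (hN : 2 ≤ N) (v : S N) (h : v.1.i ≤ 2 * N) : ∃ t, a hN t = v := by
  obtain ⟨v, hv⟩ := v
  have h1 := v.hv
  have h2 := v.hx
  simp only at h
  have h3 : v.l = 0 := by
    rcases hv with h4 | h4
    · exact h4.2
    · rw [h4.2]; unfold lo; omega
  have h5 : v.x = 0 := by rw [h3] at h2; omega
  by_cases h0 : v.i = 0
  · refine ⟨⟨0, by omega⟩, ?_⟩
    apply Subtype.ext
    apply Vx.ext
    · show idx N 0 = v.i
      rw [h0]; rfl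
    · exact h3.symm
    · exact h5.symm
  · refine ⟨⟨v.i - N + 1, by omega⟩, ?_⟩
    apply Subtype.ext
    apply Vx.ext
    · show idx N (v.i - N + 1) = v.i
      unfold idx
      rw [if_neg (by omega)]
      omega
    · exact h3.symm
    · exact h5.symm

theorem boundary_edge (hN : 2 ≤ N) (u v : S N) (hu : u.1.i ≤ 2 * N) (hv : 2 * N < v.1.i)
    (hd : (G N).dist u.1 v.1 ≤ 2 * (4 * N + 2)) :
    (u.1.i = 2 * N - 1 ∨ u.1.i = 2 * N) ∧ v.1.i = 2 * N + 1 := by
  have hv2 : 0 < v.1.i ∧ v.1.l = lo N v.1.i := by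
    rcases v.2 with h | h
    · omega
    · exact h
  rcases u.2 with h | h
  · exfalso
    have h3 := u.1.hx
    rw [h.2] at h3
    have hu : u.1 = rt N := Vx.ext h.1 h.2 (by show u.1.x = 0; omega)
    have h4 := dist_hub_root hv2.1 hv2.2
    rw [hu, SimpleGraph.dist_comm] at hd
    unfold lo at *
    omega
  · have hne : u.1 ≠ v.1 := fun h' => by rw [h'] at hu; omega
    have h4 := dist_hub_hub h.1 h.2 hv2.1 hv2.2 hne
    unfold lo at *
    omega

theorem boundary_le (hN : 2 ≤ N) (A : Finset (S N)) (hA : ∀ v, v ∈ A ↔ ∃ t, a hN t = v) :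
    (edgeBoundary (netGraph (G N) (4 * N + 2) (S N)) (A : Set (S N))).encard ≤ 128 := by
  classical
  have hi : ∀ v ∈ A, v.1.i ≤ 2 * N := by
    intro v hv
    obtain ⟨t, rfl⟩ := (hA v).1 hv
    show idx N t ≤ 2 * N
    unfold idx
    split_ifs <;> omega
  set U : Set (S N) := {u | u ∈ A ∧ (u.1.i = 2 * N - 1 ∨ u.1.i = 2 * N)} with hU
  set W : Set (S N) := {v | v.1.i = 2 * N + 1} with hW
  have hsub : edgeBoundary (netGraph (G N) (4 * N + 2) (S N)) (A : Set (S N)) ⊆
      (fun p : S N × S N => s(p.1, p.2)) '' (U ×ˢ W) := by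
    rintro e ⟨u, v, hu, hv, hadj, rfl⟩
    have hu' : u ∈ A := hu
    have hv' : v ∉ A := hv
    have h1 : 2 * N < v.1.i := by
      by_contra h
      exact hv' ((hA v).2 (exists_a hN v (by omega)))
    obtain ⟨h2, h3⟩ := boundary_edge hN u v (hi u hu') h1 hadj.2
    exact ⟨(u, v), ⟨⟨hu', h2⟩, h3⟩, rfl⟩
  have h0 : ∀ u : S N, u.1.i ≤ 2 * N → u.1.l = 0 ∧ u.1.x = 0 := by
    intro u hu
    obtain ⟨t, rfl⟩ := exists_a hN u hu
    exact ⟨rfl, rfl⟩
  have hUc : U.encard ≤ 2 := by
    have := Set.encard_le_encard_of_injOn (s := U)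
      (t := (({2 * N - 1, 2 * N} : Finset ℕ) : Set ℕ)) (f := fun u : S N => u.1.i)
      (fun u hu => by simpa using hu.2)
      (fun u hu v hv h => by
        have e1 := h0 u (hi u hu.1)
        have e2 := h0 v (hi v hv.1)
        exact Subtype.ext (Vx.ext h (by rw [e1.1, e2.1]) (by rw [e1.2, e2.2])))
    refine this.trans ?_
    rw [Set.encard_coe_eq_coe_finsetCard]
    exact_mod_cast Finset.card_le_two
  have hWl : ∀ v ∈ W, v.1.l = 6 := by
    intro v hv
    have hv' : v.1.i = 2 * N + 1 := hv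
    rcases v.2 with h | h
    · omega
    · rw [h.2, hv']; unfold lo; omega
  have hWc : W.encard ≤ 64 := by
    have := Set.encard_le_encard_of_injOn (s := W)
      (t := ((Finset.range 64 : Finset ℕ) : Set ℕ)) (f := fun u : S N => u.1.x)
      (fun v hv => by
        have h1 := v.1.hx
        rw [hWl v hv] at h1
        simpa using h1)
      (fun u hu v hv h => by
        have hu' : u.1.i = 2 * N + 1 := hu
        have hv' : v.1.i = 2 * N + 1 := hv
        exact Subtype.ext (Vx.ext (by rw [hu', hv']) (by rw [hWl u hu, hWl v hv]) h))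
    rwa [Set.encard_coe_eq_coe_finsetCard, Finset.card_range] at this
  calc _ ≤ _ := Set.encard_le_encard hsub
    _ ≤ (U ×ˢ W).encard := Set.encard_image_le _ _
    _ = U.encard * W.encard := Set.encard_prod
    _ ≤ 2 * 64 := mul_le_mul' hUc hWc
    _ = 128 := by norm_num

theorem cheeger_net (hN : 2 ≤ N) :
    cheeger (netGraph (G N) (4 * N + 2) (S N)) ≤ 128 / ((N + 2 : ℕ) : ENNReal) := by
  classical
  set A : Finset (S N) := Finset.univ.map ⟨a hN, a_inj hN⟩ with hA
  have hmem : ∀ v, v ∈ A ↔ ∃ t, a hN t = v := by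
    intro v
    simp [hA]
  have hcard : A.card = N + 2 := by
    rw [hA, Finset.card_map, Finset.card_univ, Fintype.card_fin]
  have hne : A.Nonempty := by
    rw [← Finset.card_pos, hcard]; omega
  unfold cheeger
  refine (iInf₂_le A hne).trans ?_
  rw [hcard]
  apply ENNReal.div_le_div_right
  exact_mod_cast boundary_le hN A hmem

/-- Negative answer to Q1: the infimum over `k ≥ 1` of `f 1 10 k` is `0`. In fact for every
`ε > 0` there are `k ≥ 1`, an infinite connected graph with all degrees at most `9` and Cheeger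
constant at least `2`, and a `k`-net of it whose net graph has Cheeger constant less than `ε`. -/
theorem result :
    (⨅ (k : ℕ) (_ : 1 ≤ k), f 1 10 k) = 0 ∧
    ∀ ε : ENNReal, 0 < ε → ∃ (k : ℕ) (V : Type) (G : SimpleGraph V) (S : Set V),
      1 ≤ k ∧ Infinite V ∧ G.Connected ∧ (∀ v, (G.neighborSet v).encard ≤ 9) ∧
      2 ≤ cheeger G ∧ IsNet G k S ∧ cheeger (netGraph G k S) < ε := by
  have key : ∀ ε : ENNReal, 0 < ε → ∃ (k : ℕ) (V : Type) (G : SimpleGraph V) (S : Set V),
      1 ≤ k ∧ Infinite V ∧ G.Connected ∧ (∀ v, (G.neighborSet v).encard ≤ 9) ∧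
      2 ≤ cheeger G ∧ IsNet G k S ∧ cheeger (netGraph G k S) < ε := by
    intro ε hε
    have hlim : Filter.Tendsto (fun n : ℕ => (128 : ENNReal) / (n : ENNReal)) Filter.atTop
        (nhds 0) := by
      have := ENNReal.Tendsto.const_div (a := (128 : ENNReal)) (b := ⊤)
        ENNReal.tendsto_nat_nhds_top (Or.inr (by norm_num))
      simpa using this
    obtain ⟨n₀, hn₀⟩ := Filter.eventually_atTop.1 (hlim.eventually (gt_mem_nhds hε))
    refine ⟨4 * (n₀ + 2) + 2, Vx (n₀ + 2), G (n₀ + 2), S (n₀ + 2), by omega, infinite, connected,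
      degree_le, cheeger_ge, isNet (by omega), ?_⟩
    exact (cheeger_net (by omega)).trans_lt (hn₀ (n₀ + 2 + 2) (by omega))
  refine ⟨?_, key⟩
  by_contra h
  have hpos : 0 < ⨅ (k : ℕ) (_ : 1 ≤ k), f 1 10 k := pos_iff_ne_zero.2 h
  obtain ⟨k, V, G', S', hk, hV, hc, hd, hch, hnet, hlt⟩ := key _ hpos
  have h1 : (⨅ (k : ℕ) (_ : 1 ≤ k), f 1 10 k) ≤ f 1 10 k := iInf₂_le k hk
  have h2 : f 1 10 k ≤ cheeger (netGraph G' k S') := by
    unfold f
    refine (iInf_le _ V).trans ((iInf_le _ G').trans ((iInf_le _ S').trans ((iInf_le _ hV).trans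
      ((iInf_le _ hc).trans ((iInf_le _ ?_).trans ((iInf_le _ ?_).trans (iInf_le _ hnet)))))))
    · exact lt_of_lt_of_le (by norm_num) hch
    · intro v
      exact lt_of_le_of_lt (hd v) (by norm_num)
  exact absurd (h1.trans h2) (not_le.2 hlt)

end Pool.Agent.Results.MP_f4bed7_co.HubTrees
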